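import Pool.Agent.L0h38.GI.Stm4
import Pool.Agent.L0h72.GI.BAD
import Pool.Agent.L0h57.GI.ALGG

/-!
# Project GI2, modules BA2 and ALG2
-/

set_option autoImplicit false

namespace Pool.Agent.L0h60.GI

open Pool.Agent.L0h38.GI Pool.Agent.Q223.IS Pool.Agent.Q32.DP Pool.Agent.L0h72.GI.BAD

theorem ne_iff2 {C : Pres → Prop} {f : Pres × Pres →. Bool}
    (h1 : ∀ k, C k → ¬ IsZ (PG k))
    (h2 : ∀ a b, C a → C b →
    (Nonempty (PG a ≃* PG b) → true ∈ f (a, b)) ∧ (¬ Nonempty (PG a ≃* PG b) → false ∈ f (a, b)))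
    {a b : Pres} (ha : C a ∨ IsZ (PG a)) (hb : C b ∨ IsZ (PG b)) :
    Ne' C f a b ↔ ¬ Nonempty (PG a ≃* PG b) := by
  constructor
  · rintro (⟨⟨h3, h4⟩, h5⟩ | ⟨h3, h4⟩ | ⟨h3, h4⟩) h6
    · have h7 := (h2 a b h3 h4).1 h6
      have h8 := Part.mem_unique h7 h5
      exact absurd h8 (by decide)
    · rw [← Pool.Agent.L0h72.GI.BAD.isZ_iff] at h4
      obtain ⟨e⟩ := h6
      obtain ⟨g⟩ := h4
      exact h1 a h3 ⟨e.trans g⟩
    · rw [← Pool.Agent.L0h72.GI.BAD.isZ_iff] at h4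
      obtain ⟨e⟩ := h6
      obtain ⟨g⟩ := h4
      exact h1 b h3 ⟨e.symm.trans g⟩
  · intro h
    rcases ha with ha | ha
    · rcases hb with hb | hb
      · exact Or.inl ⟨⟨ha, hb⟩, (h2 a b ha hb).2 h⟩
      · exact Or.inr (Or.inl ⟨ha, (Pool.Agent.L0h72.GI.BAD.isZ_iff b).1 hb⟩)
    · rcases hb with hb | hb
      · exact Or.inr (Or.inr ⟨hb, (Pool.Agent.L0h72.GI.BAD.isZ_iff a).1 ha⟩)
      · obtain ⟨e⟩ := ha
        obtain ⟨g⟩ := hb
        exact absurd ⟨e.trans g.symm⟩ h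

/-- BA2 -/
theorem t_BA2 : S_BA2 := by
  intro C f hC hf h1 h2
  refine ⟨Q C f, Q_re hC hf, ?_⟩
  intro L E L' E' hL hL'
  have hne : ∀ (i : Fin L.length) (j : Fin L'.length),
      Ne' C f (L.getD i.1 (0, [])) (L'.getD j.1 (0, [])) ↔
        ¬ Nonempty (PG (L.get i) ≃* PG (L'.get j)) := by
    intro i j
    rw [getD_fin, getD_fin]
    exact ne_iff2 h1 h2 (hL _ (L.get_mem i)) (hL' _ (L'.get_mem j))
  constructor
  · rintro hQ ⟨σ, hσ⟩
    have hcard : L.length = L'.length := by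
      have := Fintype.card_congr σ.toEquiv
      rwa [Fintype.card_fin, Fintype.card_fin] at this
    rcases hQ with hQ | hQ
    · exact hQ hcard
    let m : List ℕ := List.ofFn fun i : Fin L.length => (σ i).1
    have hm1 : m.length = L.length := List.length_ofFn
    have hm : m ∈ maps L'.length L.length := by
      rw [mem_maps]
      refine ⟨hm1, ?_⟩
      intro a ha
      obtain ⟨i, rfl⟩ := (List.mem_ofFn' _ _).1 ha
      exact (σ i).2
    have hg : ∀ i : Fin L.length, m.getD i.1 0 = (σ i).1 := by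
      intro i
      rw [List.getD_eq_getElem _ _ (by rw [hm1]; exact i.2)]
      simp [m]
    obtain ⟨i, j, ⟨hi, hj⟩, h⟩ := hQ m hm
    simp only at hi hj
    have gi := hg ⟨i, hi⟩
    have gj := hg ⟨j, hj⟩
    simp only at gi gj
    rw [gi, gj] at h
    rcases h with ⟨h, h'⟩ | ⟨h, h'⟩ | ⟨h, h'⟩ | h
    · have := σ.injective (Fin.ext h')
      exact h (congrArg Fin.val this)
    · apply h'
      rw [← gr_adj, σ.map_adj_iff, gr_adj]
      exact h
    · apply h
      rw [← gr_adj, σ.map_adj_iff, gr_adj] at h'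
      exact h'
    · exact (hne ⟨i, hi⟩ (σ ⟨i, hi⟩)).1 h (hσ _)
  · intro hno
    by_contra hQ
    unfold Q at hQ
    push Not at hQ
    obtain ⟨hlen, m, hm, hbad⟩ := hQ
    simp only at hlen hm
    apply hno
    obtain ⟨hm1, hm2⟩ := (mem_maps _ _ _).1 hm
    have hlt : ∀ i : Fin L.length, m.getD i.1 0 < L'.length := by
      intro i
      have hi : i.1 < m.length := by rw [hm1]; exact i.2
      rw [List.getD_eq_getElem _ _ hi]
      exact hm2 _ (List.getElem_mem hi)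
    let s : Fin L.length → Fin L'.length := fun i => ⟨m.getD i.1 0, hlt i⟩
    have hb : ∀ i j : Fin L.length, ¬ ((i.1 ≠ j.1 ∧ m.getD i.1 0 = m.getD j.1 0) ∨
      ((adj E i.1 j.1 ∧ ¬ adj E' (m.getD i.1 0) (m.getD j.1 0)) ∨
      ((¬ adj E i.1 j.1 ∧ adj E' (m.getD i.1 0) (m.getD j.1 0)) ∨
      Ne' C f (L.getD i.1 (0, [])) (L'.getD (m.getD i.1 0) (0, []))))) := by
      intro i j h
      exact hbad ⟨i.1, j.1, ⟨i.2, j.2⟩, h⟩
    have hinj : Function.Injective s := by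
      intro i j hij
      by_contra hne'
      exact hb i j (Or.inl ⟨fun h => hne' (Fin.ext h), congrArg Fin.val hij⟩)
    have hbij : Function.Bijective s := by
      rw [Fintype.bijective_iff_injective_and_card]
      exact ⟨hinj, by rw [Fintype.card_fin, Fintype.card_fin, hlen]⟩
    refine ⟨⟨Equiv.ofBijective s hbij, ?_⟩, ?_⟩
    · intro i j
      show (gr E' L'.length).Adj (s i) (s j) ↔ (gr E L.length).Adj i j
      rw [gr_adj, gr_adj]
      constructor
      · intro h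
        by_contra h'
        exact hb i j (Or.inr (Or.inr (Or.inl ⟨h', h⟩)))
      · intro h
        by_contra h'
        exact hb i j (Or.inr (Or.inl ⟨h, h'⟩))
    · intro i
      show Nonempty (PG (L.get i) ≃* PG (L'.get (s i)))
      by_contra h
      exact hb i i (Or.inr (Or.inr (Or.inr ((hne i (s i)).2 h))))

/-- groups with finite centre are not infinite cyclic -/
theorem finC_not_isZ {X : Type} [Group X] (h : FinC X) : ¬ IsZ X := by
  rintro ⟨e⟩
  have h1 : ∀ x : X, x ∈ Subgroup.center X := by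
    intro x
    rw [Subgroup.mem_center_iff]
    intro g
    apply e.injective
    rw [map_mul, map_mul, mul_comm]
  haveI : Finite (Subgroup.center X) := h
  haveI : Finite X := Finite.of_injective (fun x : X => (⟨x, h1 x⟩ : Subgroup.center X))
    (fun x y hxy => congrArg Subtype.val hxy)
  haveI : Finite (Multiplicative ℤ) := Finite.of_equiv X e.toEquiv
  exact Infinite.not_finite (α := Multiplicative ℤ) inferInstance

open Pool.Agent.L0h57.GI in
theorem t_ALG2 (h1 : S_UN2) (h2 : S_COD) (h3 : S_BA2) : S_ALG2 := by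
  intro C hC hCp hsol
  obtain ⟨f, hf, hf2⟩ := hsol
  obtain ⟨Pc, hPc, hPc2⟩ := h2
  obtain ⟨Q, hQ, hQ2⟩ := h3 C f hC hf (fun k hk => finC_not_isZ (hCp k hk).2.1) hf2
  have hOk : ∀ k : Pres, (C k ∨ IsZ (PG k)) → Ok2 (PG k) := by
    rintro k (hk | hk)
    · exact Or.inl (hCp k hk)
    · exact Or.inr hk
  refine SEARCH.solvable_of (re_NG (re_D hC) hPc hQ) ?_ ?_
  · rintro p q ⟨⟨⟨L, E⟩, ⟨L', E'⟩⟩, ⟨hL, hL'⟩, ⟨⟨⟨u⟩⟩, ⟨⟨u'⟩⟩⟩, hq⟩ ⟨v⟩
    obtain ⟨w⟩ := hPc2 L E
    obtain ⟨w'⟩ := hPc2 L' E'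
    have hiso : Nonempty (GrP (gr E L.length) (fun i : Fin L.length => PG (L.get i)) ≃*
        GrP (gr E' L'.length) (fun i : Fin L'.length => PG (L'.get i))) :=
      ⟨w.symm.trans (u.symm.trans (v.trans (u'.trans w')))⟩
    exact (hQ2 L E L' E' hL hL').1 hq
      (h1 (Fin L.length) (Fin L'.length) (gr E L.length) (gr E' L'.length)
        (fun i => PG (L.get i)) (fun i => PG (L'.get i))
        (fun i => hOk _ (hL _ (List.get_mem _ _))) (fun i => hOk _ (hL' _ (List.get_mem _ _)))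
        hiso)
  · rintro p q hp hq hno
    obtain ⟨L, E, hL, ⟨u⟩⟩ := code hp
    obtain ⟨L', E', hL', ⟨u'⟩⟩ := code hq
    obtain ⟨w⟩ := hPc2 L E
    obtain ⟨w'⟩ := hPc2 L' E'
    refine ⟨((L, E), (L', E')), ⟨hL, hL'⟩, ⟨⟨⟨u.trans w.symm⟩⟩, ⟨⟨u'.trans w'.symm⟩⟩⟩, ?_⟩
    refine (hQ2 L E L' E' hL hL').2 ?_
    rintro ⟨σ, hσ⟩
    obtain ⟨v⟩ := gp_congr (G := fun i => PG (L.get i)) (H := fun i => PG (L'.get i)) σ hσ
    exact hno ⟨u.trans (v.trans u'.symm)⟩

end Pool.Agent.L0h60.GI
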